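import Pool.Agent.Helper1.TE.Goals2

/-!
# PROJECT TE (MP_8b4d68_lc), packet EC
-/

namespace Pool.Agent.Helper95.TE

open Pool.Agent.Helper1.TE
open Pool.Agent.Helper65.LinSpace (dig tab nrec ifz eq01 le01 lt01 capPow Ctx)

/-- **EC** -/
theorem gEC : GoalEC := by
  intro hCT hEB h b W h0 h1
  obtain ⟨e1, e2, e3⟩ := hEB hCT h b W h0 h1
  refine ⟨fun p z => ?_, fun tst T v z hT => ?_⟩
  · rw [e1]; rfl
  · have hG : GM h b W = (LP h b W + RP h b) / RP h b + 1 := rfl
    have hP : PM h b W = LP h b W + RP h b := rfl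
    have hcase : T = 0 ∨ T = 1 ∨ T = 2 := by omega
    rcases hcase with rfl | rfl | rfl
    · simp only [app, apT, apM, ifz, cif]
      simp
    · simp only [app, apT, apM, ifz, cif, hdM, e3, wM, hG]
      simp [gadM, numGad]
    · simp only [app, apT, apM, ifz, cif, e2, e3, wM, hG, hP, lt01]
      simp only [gadM, numGad]
      split_ifs <;> simp_all

end Pool.Agent.Helper95.TE
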