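import Pool.Agent.Helper95.TE.StarA
import Pool.Agent.Helper95.NW.CRX
import Pool.Agent.Helper61.NW.Goals2

set_option autoImplicit false

namespace Pool.Agent.Helper95.TE

open Pool.Agent.Helper52.Wq2 Pool.Agent.Helper61.NW Pool.Agent.Helper95.NW

variable {n m : ℕ} {G : SimpleGraph (ℤ × Fin n)}

/-- Crossing between two lines. -/
def XL (G : SimpleGraph (ℤ × Fin n)) (u v : Fin n) : Prop :=
  ∃ a : ℤ, G.Adj (a, u) (a + 1, v) ∧ G.Adj (a + 1, u) (a, v)

theorem XL.symm {u v : Fin n} (h : XL G u v) : XL G v u := by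
  obtain ⟨a, h1, h2⟩ := h
  exact ⟨a, h2.symm, h1.symm⟩

theorem XL.map (T : Lsys n m G) (f : G ≃g G) (τ : Equiv.Perm (Fin n)) (e : ℤ) (c : Fin n → ℤ)
    (he : e = 1 ∨ e = -1) (hf : ∀ a k, f (a, k) = (e * a + c k, τ k)) {u v : Fin n}
    (h : XL G u v) : XL G (τ u) (τ v) := by
  obtain ⟨a, h1, h2⟩ := h
  have g1 := f.map_rel_iff.2 h1
  have g2 := f.map_rel_iff.2 h2
  rw [hf, hf] at g1 g2
  have n1 := abs_le.1 (T.near _ _ _ _ g1)
  have n2 := abs_le.1 (T.near _ _ _ _ g2)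
  rcases he with rfl | rfl
  · have hc : c u = c v := by omega
    refine ⟨a + c v, ?_, ?_⟩
    · have e1 : 1 * a + c u = a + c v := by rw [hc]; ring
      have e2 : 1 * (a + 1) + c v = a + c v + 1 := by ring
      rw [e1, e2] at g1
      exact g1
    · have e1 : 1 * (a + 1) + c u = a + c v + 1 := by rw [hc]; ring
      have e2 : 1 * a + c v = a + c v := by ring
      rw [e1, e2] at g2
      exact g2
  · have hc : c u = c v := by omega
    refine ⟨-a - 1 + c v, ?_, ?_⟩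
    · have e1 : -1 * (a + 1) + c u = -a - 1 + c v := by rw [hc]; ring
      have e2 : -1 * a + c v = -a - 1 + c v + 1 := by ring
      rw [e1, e2] at g2
      exact g2
    · have e1 : -1 * a + c u = -a - 1 + c v + 1 := by rw [hc]; ring
      have e2 : -1 * (a + 1) + c v = -a - 1 + c v := by ring
      rw [e1, e2] at g1
      exact g1

theorem lg_map (f : G ≃g G) (τ : Equiv.Perm (Fin n)) (e : ℤ) (c : Fin n → ℤ)
    (hf : ∀ a k, f (a, k) = (e * a + c k, τ k)) {u v : Fin n}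
    (h : (Lg G).Adj u v) : (Lg G).Adj (τ u) (τ v) := by
  unfold Lg at h ⊢
  rw [SimpleGraph.fromRel_adj] at h ⊢
  obtain ⟨hne, h⟩ := h
  refine ⟨fun h' => hne (τ.injective h'), ?_⟩
  rcases h with ⟨a, b, h⟩ | ⟨a, b, h⟩
  · have g := f.map_rel_iff.2 h
    rw [hf, hf] at g
    exact Or.inl ⟨_, _, g⟩
  · have g := f.map_rel_iff.2 h
    rw [hf, hf] at g
    exact Or.inr ⟨_, _, g⟩

theorem lcrs_iff (e : Fin n ≃ ZMod n) (j : ZMod n) :
    LCrs G e j ↔ XL G (e.symm j) (e.symm (j + 1)) := by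
  unfold LCrs XL
  constructor
  · rintro ⟨a, u, v, h1, h2, h3, h4⟩
    have e1 : e.symm j = u := by rw [← h1, Equiv.symm_apply_apply]
    have e2 : e.symm (j + 1) = v := by rw [← h2, Equiv.symm_apply_apply]
    rw [e1, e2]
    exact ⟨a, h3, h4⟩
  · rintro ⟨a, h3, h4⟩
    exact ⟨a, _, _, Equiv.apply_symm_apply _ _, Equiv.apply_symm_apply _ _, h3, h4⟩

theorem gaps (T : Lsys n m G) (hn : 3 ≤ n) (e : Fin n ≃ ZMod n) (he : LCyc G e) (j k : ZMod n) :
    (XL G (e.symm j) (e.symm (j + 1)) ∨ XL G (e.symm j) (e.symm (j - 1)) →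
      XL G (e.symm k) (e.symm (k + 1)) ∨ XL G (e.symm k) (e.symm (k - 1))) ∧
    (XL G (e.symm j) (e.symm (j + 1)) ∧ XL G (e.symm j) (e.symm (j - 1)) →
      XL G (e.symm k) (e.symm (k + 1)) ∧ XL G (e.symm k) (e.symm (k - 1))) := by
  obtain ⟨f, τ, s, c, hs, hτ, hf⟩ := T.trans (e.symm j) (e.symm k)
  have key : ∀ i : ZMod n, (i = j + 1 ∨ i = j - 1) →
      (τ (e.symm i) = e.symm (k + 1) ∨ τ (e.symm i) = e.symm (k - 1)) := by
    intro i hi
    have h1 : (Lg G).Adj (e.symm j) (e.symm i) := by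
      rw [he, Equiv.apply_symm_apply, Equiv.apply_symm_apply]
      rcases hi with rfl | rfl
      · exact Or.inl rfl
      · exact Or.inr (by ring)
    have h2 := lg_map f τ s c hf h1
    rw [hτ, he, Equiv.apply_symm_apply] at h2
    rcases h2 with h2 | h2
    · exact Or.inl (by rw [← h2, Equiv.symm_apply_apply])
    · right
      rw [h2, add_sub_cancel_right, Equiv.symm_apply_apply]
  have h1 := key _ (Or.inl rfl)
  have h2 := key _ (Or.inr rfl)
  have h20 : (2 : ZMod n) ≠ 0 := by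
    intro h0
    have h3 : ((2 : ℕ) : ZMod n) = 0 := by exact_mod_cast h0
    rw [ZMod.natCast_eq_zero_iff] at h3
    have := Nat.le_of_dvd (by norm_num) h3
    omega
  have hne : τ (e.symm (j + 1)) ≠ τ (e.symm (j - 1)) := by
    intro h0
    have h3 := e.symm.injective (τ.injective h0)
    apply h20
    have h4 : (2 : ZMod n) = (j + 1) - (j - 1) := by ring
    rw [h4, h3, sub_self]
  constructor
  · rintro (hx | hx)
    · have h3 := hx.map T f τ s c hs hf
      rw [hτ] at h3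
      rcases h1 with h1 | h1
      · rw [h1] at h3; exact Or.inl h3
      · rw [h1] at h3; exact Or.inr h3
    · have h3 := hx.map T f τ s c hs hf
      rw [hτ] at h3
      rcases h2 with h2 | h2
      · rw [h2] at h3; exact Or.inl h3
      · rw [h2] at h3; exact Or.inr h3
  · rintro ⟨hx, hy⟩
    have h3 := hx.map T f τ s c hs hf
    have h4 := hy.map T f τ s c hs hf
    rw [hτ] at h3 h4
    rcases h1 with h1 | h1 <;> rcases h2 with h2 | h2
    · exact absurd (h1.trans h2.symm) hne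
    · rw [h1] at h3; rw [h2] at h4; exact ⟨h3, h4⟩
    · rw [h1] at h3; rw [h2] at h4; exact ⟨h4, h3⟩
    · exact absurd (h1.trans h2.symm) hne

theorem lshift (T : Lsys n m G) (hn : 3 ≤ n) (e : Fin n ≃ ZMod n) (he : LCyc G e)
    (hc : ∃ j, LCrs G e j) : ∃ j0 : ZMod n, ∀ i : ℕ, LCrs G e (j0 + 2 * i) := by
  obtain ⟨j, hj⟩ := hc
  have some1 : ∀ k, XL G (e.symm k) (e.symm (k + 1)) ∨ XL G (e.symm k) (e.symm (k - 1)) :=
    fun k => (gaps T hn e he j k).1 (Or.inl ((lcrs_iff e j).1 hj))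
  by_cases hall : ∀ k, LCrs G e k
  · exact ⟨j, fun i => hall _⟩
  push Not at hall
  obtain ⟨k, hk⟩ := hall
  have nboth : ∀ l, ¬ (XL G (e.symm l) (e.symm (l + 1)) ∧ XL G (e.symm l) (e.symm (l - 1))) := by
    intro l hl
    exact hk ((lcrs_iff e k).2 ((gaps T hn e he l k).2 hl).1)
  refine ⟨j, fun i => ?_⟩
  induction i with
  | zero => simpa using hj
  | succ i ih =>
    set l : ZMod n := j + 2 * (i : ZMod n) with hl
    have e1 : j + 2 * ((i + 1 : ℕ) : ZMod n) = l + 2 := by rw [hl]; push_cast; ring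
    rw [e1]
    have h1 : ¬ XL G (e.symm (l + 1)) (e.symm (l + 1 + 1)) := by
      intro h2
      refine nboth (l + 1) ⟨h2, ?_⟩
      rw [add_sub_cancel_right]
      exact ((lcrs_iff e l).1 ih).symm
    have h3 : XL G (e.symm (l + 2)) (e.symm (l + 2 + 1)) := by
      rcases some1 (l + 2) with h4 | h4
      · exact h4
      · exfalso
        apply h1
        have e2 : l + 2 - 1 = l + 1 := by ring
        have e3 : l + 2 = l + 1 + 1 := by ring
        rw [e2, e3] at h4
        exact h4.symm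
    exact (lcrs_iff e (l + 2)).2 h3

theorem per_z (T : Lsys n m G) (a b : ℤ) (i j : Fin n) (k : ℤ) (h : G.Adj (a, i) (b, j)) :
    G.Adj (a + (m : ℤ) * k, i) (b + (m : ℤ) * k, j) := by
  have up : ∀ k : ℕ, ∀ a b : ℤ, G.Adj (a, i) (b, j) ↔
      G.Adj (a + (m : ℤ) * k, i) (b + (m : ℤ) * k, j) := by
    intro k
    induction k with
    | zero => intro a b; simp
    | succ k ih =>
      intro a b
      rw [ih a b, T.per]
      have e1 : a + (m : ℤ) * (k : ℕ) + m = a + (m : ℤ) * ((k + 1 : ℕ) : ℤ) := by push_cast; ring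
      have e2 : b + (m : ℤ) * (k : ℕ) + m = b + (m : ℤ) * ((k + 1 : ℕ) : ℤ) := by push_cast; ring
      rw [e1, e2]
  rcases Int.eq_nat_or_neg k with ⟨k', rfl | rfl⟩
  · exact (up k' a b).1 h
  · rw [up k']
    have e1 : a + (m : ℤ) * (-(k' : ℤ)) + (m : ℤ) * (k' : ℤ) = a := by ring
    have e2 : b + (m : ℤ) * (-(k' : ℤ)) + (m : ℤ) * (k' : ℤ) = b := by ring
    rw [e1, e2]
    exact h

theorem lcx : LcxStmt := by
  intro n m G T hn e he hc q hq
  obtain ⟨j0, hj0⟩ := lshift T hn e he hc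
  haveI : NeZero n := ⟨by omega⟩
  refine (starZ_mono (Fin.castSucc (n := q)) (Fin.castSucc_injective q)).trans
    (starA (q + 1) (Nat.succ_pos q) (m : ℤ) (by exact_mod_cast T.mpos)
      (fun x l => (x, e.symm (j0 + ((l : ℕ) : ZMod n)))) ?_ ?_ ?_ ?_)
  · intro x l x' l' hl hl' h
    rw [Prod.mk.injEq] at h
    refine ⟨h.1, ?_⟩
    have h1 := add_left_cancel (e.symm.injective h.2)
    rw [ZMod.natCast_eq_natCast_iff', Nat.mod_eq_of_lt (by omega), Nat.mod_eq_of_lt (by omega)] at h1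
    exact h1
  · intro x l _
    exact T.step _ _
  · intro l _
    have h1 : (Lg G).Adj (e.symm (j0 + ((l : ℕ) : ZMod n)))
        (e.symm (j0 + ((l + 1 : ℕ) : ZMod n))) := by
      rw [he, Equiv.apply_symm_apply, Equiv.apply_symm_apply]
      left; push_cast; ring
    unfold Lg at h1
    rw [SimpleGraph.fromRel_adj] at h1
    rcases h1.2 with ⟨a, b, h2⟩ | ⟨a, b, h2⟩
    · exact ⟨a, b, fun k => per_z T _ _ _ _ k h2⟩
    · exact ⟨b, a, fun k => (per_z T _ _ _ _ k h2).symm⟩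
  · intro j _
    have h1 := (lcrs_iff e _).1 (hj0 j)
    obtain ⟨a, h2, h3⟩ := h1
    have e1 : j0 + ((2 * j : ℕ) : ZMod n) = j0 + 2 * (j : ZMod n) := by push_cast; ring
    have e2 : j0 + ((2 * j + 1 : ℕ) : ZMod n) = j0 + 2 * (j : ZMod n) + 1 := by push_cast; ring
    refine ⟨a, a + 1, a + 1, a, by omega, by omega, fun k => ?_⟩
    simp only [e1, e2]
    exact ⟨per_z T _ _ _ _ k h2, per_z T _ _ _ _ k h3⟩

end Pool.Agent.Helper95.TE
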