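import Pool.Agent.Helper95.TE.DIH
import Pool.Agent.Helper74.DIH.Goals

set_option autoImplicit false

universe u

namespace Pool.Agent.Helper95.TE

open Pool.Agent.Helper52.Wq2 Pool.Agent.Helper61.NW Pool.Agent.Helper54.NW
open scoped Nat

theorem d2 : Pool.Agent.Helper74.DIH.D2Stmt.{u} := by
  intro Γ _ ε h T s hs
  haveI : Finite (Kr T) := T.ker
  have hc : ({g | ε g = 1 ∧ h g = 0} : Set Γ).ncard = Nat.card (Kr T) :=
    (Nat.card_coe_set_eq {g | ε g = 1 ∧ h g = 0}).symm
  rw [hc]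
  refine ⟨(Nat.card (Kr T)) ! * Nat.card (Kr T),
    Nat.mul_pos (Nat.factorial_pos _) Nat.card_pos, le_refl _, ?_⟩
  intro γ
  have h1 := pow_kr T s hs _ (le_refl _) γ⁻¹
  rw [eps_inv, inv_inv] at h1
  rw [← h1]
  group

theorem d3 : Pool.Agent.Helper74.DIH.D3Stmt.{u} := by
  intro Γ _ ε h S T hS hfin
  have hR : ∃ u ∈ S, ε u = -1 := by
    by_contra hcon
    push Not at hcon
    obtain ⟨u, hu⟩ := T.neg
    have hle : Subgroup.closure S ≤ ε.ker := by
      rw [Subgroup.closure_le]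
      intro t ht
      rw [SetLike.mem_coe, MonoidHom.mem_ker]
      exact (Int.units_eq_one_or (ε t)).resolve_right (hcon t ht)
    have h1 : u ∈ ε.ker := hle (by rw [hS.1]; trivial)
    rw [MonoidHom.mem_ker, hu] at h1
    exact absurd h1 (by decide)
  obtain ⟨u0, hu0, hu0'⟩ := hR
  have hRf : {u | u ∈ S ∧ ε u = -1}.Finite := hfin.subset (fun u hu => hu.1)
  have hRn : {u | u ∈ S ∧ ε u = -1}.Nonempty := ⟨u0, hu0, hu0'⟩
  obtain ⟨t, ⟨ht, ht'⟩, htm⟩ := Set.exists_max_image _ h hRf hRn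
  obtain ⟨r, ⟨hr, hr'⟩, hrm⟩ := Set.exists_min_image _ h hRf hRn
  set y0 : ℤ := h t + h r with hy0
  obtain ⟨s, hs, hsm⟩ := Set.exists_max_image S
    (fun u => |4 * h u + ((ε u : ℤ) - 1) * y0|) hfin ⟨t, ht⟩
  have hpos : 0 < |4 * h s + ((ε s : ℤ) - 1) * y0| := by
    by_contra hcon
    have h0 : ∀ u ∈ S, 4 * h u + ((ε u : ℤ) - 1) * y0 = 0 := by
      intro u hu
      have h1 := hsm u hu
      have h2 := abs_nonneg (4 * h u + ((ε u : ℤ) - 1) * y0)
      exact abs_eq_zero.1 (by omega)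
    have hall : ∀ g : Γ, 4 * h g + ((ε g : ℤ) - 1) * y0 = 0 := by
      intro g
      have hg : g ∈ Subgroup.closure S := by rw [hS.1]; trivial
      induction hg using Subgroup.closure_induction with
      | mem x hx => exact h0 x hx
      | one => rw [dh_one T, map_one, Units.val_one]; ring
      | mul x y _ _ hx hy =>
        rw [T.coc, map_mul, Units.val_mul]
        linear_combination hx + (ε x : ℤ) * hy
      | inv x _ hx =>
        rw [dh_inv T, eps_inv]
        linear_combination (-(ε x : ℤ)) * hx + y0 * sq1 (ε := ε) x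
    obtain ⟨g, hg, hg'⟩ := T.unb
    have h1 := hall g
    rw [hg, Units.val_one] at h1
    omega
  rcases Int.units_eq_one_or (ε s) with he | he
  · have hD : 4 * h s + ((ε s : ℤ) - 1) * y0 = 4 * h s := by rw [he, Units.val_one]; ring
    rw [hD] at hsm hpos
    have hi : h s⁻¹ = - h s := by rw [dh_inv T, he, Units.val_one]; ring
    have hei : ε s⁻¹ = 1 := by rw [eps_inv, he]
    rcases lt_or_ge 0 (h s) with hlt | hge
    · refine ⟨y0, 4 * h s, s, s⁻¹, by omega, hs, hS.2.1 _ hs, Or.inl ⟨he, rfl⟩, hD, ?_, ?_⟩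
      · rw [hei, hi, Units.val_one]; ring
      · intro u hu
        have := hsm u hu
        rwa [abs_of_pos (by omega : (0 : ℤ) < 4 * h s)] at this
    · have hlt : h s < 0 := by
        rcases lt_or_eq_of_le hge with h1 | h1
        · exact h1
        · rw [h1] at hpos; simp at hpos
      refine ⟨y0, -(4 * h s), s⁻¹, s, by omega, hS.2.1 _ hs, hs, Or.inl ⟨hei, by simp⟩, ?_, ?_, ?_⟩
      · rw [hei, hi, Units.val_one]; ring
      · rw [he, Units.val_one]; ring
      · intro u hu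
        have := hsm u hu
        rwa [abs_of_neg (by omega : 4 * h s < 0)] at this
  · have hDt : 4 * h t + ((ε t : ℤ) - 1) * y0 = 2 * (h t - h r) := by
      rw [ht', Units.val_neg, Units.val_one, hy0]; ring
    have hDr : 4 * h r + ((ε r : ℤ) - 1) * y0 = -(2 * (h t - h r)) := by
      rw [hr', Units.val_neg, Units.val_one, hy0]; ring
    have hDs : 4 * h s + ((ε s : ℤ) - 1) * y0 = 4 * h s - 2 * (h t + h r) := by
      rw [he, Units.val_neg, Units.val_one, hy0]; ring
    have h1 := htm s ⟨hs, he⟩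
    have h2 := hrm s ⟨hs, he⟩
    have hle : |4 * h s + ((ε s : ℤ) - 1) * y0| ≤ 2 * (h t - h r) := by
      rw [hDs, abs_le]
      constructor <;> omega
    exact ⟨y0, 2 * (h t - h r), t, r, by omega, ht, hr, Or.inr ⟨ht', hr'⟩, hDt, hDr,
      fun u hu => (hsm u hu).trans hle⟩

end Pool.Agent.Helper95.TE
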