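import Pool.Agent.Helper54.NW.PHI

set_option autoImplicit false

universe u

namespace Pool.Agent.Helper95.TE

open Pool.Agent.Helper52.Wq2 Pool.Agent.Helper61.NW Pool.Agent.Helper54.NW
open scoped Nat

section

variable {Γ : Type u} [Group Γ] {ε : Γ →* ℤˣ} {h : Γ → ℤ}

theorem dh_one (T : Dh ε h) : h 1 = 0 := by
  have h1 := T.coc 1 1
  rw [mul_one, map_one, Units.val_one, one_mul] at h1
  omega

theorem sq1 (g : Γ) : (ε g : ℤ) * (ε g : ℤ) = 1 := by
  rcases Int.units_eq_one_or (ε g) with h | h <;> rw [h] <;> simp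

theorem dh_inv (T : Dh ε h) (g : Γ) : h g⁻¹ = - ((ε g : ℤ) * h g) := by
  have h1 := T.coc g g⁻¹
  rw [mul_inv_cancel, dh_one T] at h1
  have h2 := sq1 (ε := ε) g
  have h3 : (ε g : ℤ) * (h g + (ε g : ℤ) * h g⁻¹) = 0 := by rw [← h1, mul_zero]
  have h4 : (ε g : ℤ) * h g + ((ε g : ℤ) * (ε g : ℤ)) * h g⁻¹ = 0 := by linarith [h3]
  rw [h2, one_mul] at h4
  linarith

theorem eps_inv (g : Γ) : ε g⁻¹ = ε g := by
  rw [map_inv]
  rcases Int.units_eq_one_or (ε g) with h | h <;> rw [h] <;> simp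

/-- The kernel. -/
def Kr (T : Dh ε h) : Subgroup Γ where
  carrier := {g | ε g = 1 ∧ h g = 0}
  mul_mem' := by
    rintro a b ⟨h1, h2⟩ ⟨h3, h4⟩
    refine ⟨by rw [map_mul, h1, h3, one_mul], ?_⟩
    rw [T.coc, h2, h4]; ring
  one_mem' := ⟨map_one _, dh_one T⟩
  inv_mem' := by
    rintro a ⟨h1, h2⟩
    exact ⟨by rw [eps_inv, h1], by rw [dh_inv T, h2]; ring⟩

theorem mem_kr (T : Dh ε h) (g : Γ) : g ∈ Kr T ↔ ε g = 1 ∧ h g = 0 := Iff.rfl

theorem h_conj (T : Dh ε h) (x w : Γ) (hw : ε w = 1) : h (x * w * x⁻¹) = (ε x : ℤ) * h w := by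
  rw [T.coc, T.coc, dh_inv T, map_mul, hw, mul_one]
  have h2 := sq1 (ε := ε) x
  have h3 : (ε x : ℤ) * -((ε x : ℤ) * h x) = -(((ε x : ℤ) * (ε x : ℤ)) * h x) := by ring
  rw [h3, h2]; ring

theorem eps_conj (x w : Γ) (hw : ε w = 1) : ε (x * w * x⁻¹) = 1 := by
  rw [map_mul, map_mul, hw, mul_one, map_inv, mul_inv_cancel]

instance kr_normal (T : Dh ε h) : (Kr T).Normal := by
  constructor
  rintro n ⟨h1, h2⟩ g
  exact ⟨eps_conj g n h1, by rw [h_conj T g n h1, h2, mul_zero]⟩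

theorem pow_kr (T : Dh ε h) (u : Γ) (hu : ε u = 1) (N : ℕ) (hN : Nat.card (Kr T) ≤ N)
    (x : Γ) : x * u ^ (N ! * Nat.card (Kr T)) * x⁻¹ =
      u ^ ((ε x : ℤ) * ((N ! * Nat.card (Kr T) : ℕ) : ℤ)) := by
  haveI : Finite (Kr T) := T.ker
  set w : Γ := u ^ (N !) with hw
  have hcomm : ∀ k ∈ Kr T, Commute k w := by
    intro k hk
    let σ : Equiv.Perm (Kr T) := (MulAut.conjNormal (H := Kr T) u).toEquiv
    have hσ : ∀ (j : ℕ) (x : Kr T), ((σ ^ j) x : Γ) = u ^ j * x * (u ^ j)⁻¹ := by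
      intro j
      induction j with
      | zero => intro x; simp
      | succ j ih =>
        intro x
        rw [pow_succ', Equiv.Perm.mul_apply]
        change ((MulAut.conjNormal (H := Kr T) u ((σ ^ j) x) : Kr T) : Γ) = _
        rw [MulAut.conjNormal_apply, ih x, pow_succ']
        group
    have h1 : orderOf σ ∣ (Nat.card (Kr T))! := by
      have := orderOf_dvd_natCard σ
      rwa [Nat.card_perm] at this
    have h2 : σ ^ (N !) = 1 :=
      orderOf_dvd_iff_pow_eq_one.1 (h1.trans (Nat.factorial_dvd_factorial hN))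
    have h3 := hσ (N !) ⟨k, hk⟩
    rw [h2, Equiv.Perm.one_apply] at h3
    have h4 : k = u ^ (N !) * k * (u ^ (N !))⁻¹ := h3
    exact eq_mul_inv_iff_mul_eq.1 h4
  have hwe : ε w = 1 := by rw [hw, map_pow, hu, one_pow]
  have hfin : ∀ c ∈ Kr T, c ^ Nat.card (Kr T) = 1 := by
    intro c hc
    have h5 : (⟨c, hc⟩ : Kr T) ^ Nat.card (Kr T) = 1 := pow_card_eq_one'
    exact congrArg (fun z : Kr T => (z : Γ)) h5
  have e0 : x * u ^ (N ! * Nat.card (Kr T)) * x⁻¹ = (x * w * x⁻¹) ^ Nat.card (Kr T) := by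
    rw [pow_mul, ← conj_pow]
  rw [e0]
  rcases Int.units_eq_one_or (ε x) with hx | hx
  · have hc : x * w * x⁻¹ * w⁻¹ ∈ Kr T := by
      refine ⟨by rw [map_mul, eps_conj x w hwe, eps_inv, hwe, one_mul], ?_⟩
      rw [T.coc, h_conj T x w hwe, eps_conj x w hwe, dh_inv T, hwe, hx]
      simp
    have h1 : x * w * x⁻¹ = (x * w * x⁻¹ * w⁻¹) * w := by group
    rw [h1, (hcomm _ hc).mul_pow, hfin _ hc, one_mul, hx, Units.val_one, one_mul, zpow_natCast,
      pow_mul]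
  · have hc : x * w * x⁻¹ * w ∈ Kr T := by
      refine ⟨by rw [map_mul, eps_conj x w hwe, hwe, one_mul], ?_⟩
      rw [T.coc, h_conj T x w hwe, eps_conj x w hwe, hx]
      simp
    have h1 : x * w * x⁻¹ = (x * w * x⁻¹ * w) * w⁻¹ := by group
    rw [h1, (hcomm _ hc).inv_right.mul_pow, hfin _ hc, one_mul, hx, Units.val_neg, Units.val_one,
      neg_one_mul, zpow_neg, zpow_natCast, pow_mul, inv_pow]

theorem fin_strip (T : Dh ε h) (y0 H : ℤ) :
    {g : Γ | 0 ≤ 4 * h g + (ε g : ℤ) * y0 ∧ 4 * h g + (ε g : ℤ) * y0 < H}.Finite := by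
  classical
  set B : ℤ := |H| + |y0| with hB
  have h1 : {g : Γ | 0 ≤ 4 * h g + (ε g : ℤ) * y0 ∧ 4 * h g + (ε g : ℤ) * y0 < H} ⊆
      ⋃ p ∈ (Set.univ ×ˢ Set.Icc (-B) B : Set (ℤˣ × ℤ)), {g : Γ | ε g = p.1 ∧ h g = p.2} := by
    rintro g ⟨g1, g2⟩
    refine Set.mem_iUnion₂.2 ⟨(ε g, h g), ⟨trivial, ?_⟩, rfl, rfl⟩
    have a1 := abs_nonneg H
    have a2 := le_abs_self H
    have a3 := neg_abs_le y0
    have a4 := le_abs_self y0
    rw [Set.mem_Icc]
    rcases Int.units_eq_one_or (ε g) with hx | hx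
    · rw [hx, Units.val_one, one_mul] at g1 g2
      constructor <;> simp only <;> omega
    · rw [hx, Units.val_neg, Units.val_one, neg_one_mul] at g1 g2
      constructor <;> simp only <;> omega
  refine Set.Finite.subset (Set.Finite.biUnion ?_ ?_) h1
  · exact Set.finite_univ.prod (Set.finite_Icc _ _)
  · rintro ⟨e, k⟩ _
    by_cases hne : ∃ g0 : Γ, ε g0 = e ∧ h g0 = k
    · obtain ⟨g0, h2, h3⟩ := hne
      refine Set.Finite.subset (T.ker.image (fun y => g0 * y)) ?_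
      rintro g ⟨h4, h5⟩
      refine ⟨g0⁻¹ * g, ⟨?_, ?_⟩, by simp⟩
      · rw [map_mul, eps_inv, h2, h4]
        simp only
        rcases Int.units_eq_one_or e with hx | hx <;> rw [hx] <;> simp
      · rw [T.coc, dh_inv T, eps_inv, h2, h3, h5]
        simp
    · refine Set.Finite.subset Set.finite_empty ?_
      rintro g ⟨h4, h5⟩
      exact hne ⟨g, h4, h5⟩

end

end Pool.Agent.Helper95.TE
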