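import Pool.Agent.Helper95.NW.NQ1

/-!
# Stars from crossings, abstract form

`v x l`, `l < 2 q`: points of `2 q` disjoint lines; `M`-periodic edges between consecutive lines, and
`M`-periodic order reversing pairs of edges between the lines `2 j` and `2 j + 1`.
-/

set_option autoImplicit false

namespace Pool.Agent.Helper95.TE

open Pool.Agent.Helper52.Wq2 Pool.Agent.Helper95.NW

/-- The number of a line. -/
def li (q : ℕ) (v : Fin q × Bool) : ℕ := 2 * (v.1 : ℕ) + (if v.2 then 1 else 0)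

theorem li_inj {q : ℕ} {v w : Fin q × Bool} (h : li q v = li q w) : v = w := by
  obtain ⟨i, ε⟩ := v
  obtain ⟨j, δ⟩ := w
  unfold li at h
  simp only at h
  cases ε <;> cases δ
  · simp at h; rw [Fin.ext h]
  · simp at h; omega
  · simp at h; omega
  · simp at h; rw [Fin.ext h]

theorem li_lt {q : ℕ} (v : Fin q × Bool) : li q v < 2 * q := by
  have := v.1.2
  unfold li
  split_ifs <;> omega

theorem bound {ι : Type*} [Finite ι] (f : ι → ℤ) : ∃ E : ℤ, 0 ≤ E ∧ ∀ i, |f i| ≤ E := by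
  cases nonempty_fintype ι
  refine ⟨∑ i, |f i|, Finset.sum_nonneg (fun i _ => abs_nonneg _), fun i => ?_⟩
  exact Finset.single_le_sum (f := fun i => |f i|) (fun i _ => abs_nonneg _) (Finset.mem_univ i)

theorem nqA {V : Type*} {G : SimpleGraph V} (q : ℕ) (M : ℤ) (hM : 0 < M) (v : ℤ → ℕ → V)
    (inj : ∀ x l x' l', l < 2 * q → l' < 2 * q → v x l = v x' l' → x = x' ∧ l = l')
    (ln : ∀ x l, l < 2 * q → G.Adj (v x l) (v (x + 1) l))
    (lk : ∀ l, l + 1 < 2 * q → ∃ a b : ℤ, ∀ k : ℤ, G.Adj (v (a + M * k) l) (v (b + M * k) (l + 1)))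
    (cr : ∀ j, j < q → ∃ a b a' b' : ℤ, a < a' ∧ b' < b ∧ ∀ k : ℤ,
      G.Adj (v (a + M * k) (2 * j)) (v (b + M * k) (2 * j + 1)) ∧
      G.Adj (v (a' + M * k) (2 * j)) (v (b' + M * k) (2 * j + 1))) : Mn (Nq q) G := by
  choose a b a' b' haa hbb hcr using fun j : Fin q => cr j.1 j.2
  choose f g hfg using fun l : {l : ℕ // l + 1 < 2 * q} => lk l.1 l.2
  haveI : Finite {l : ℕ // l + 1 < 2 * q} :=
    Set.Finite.to_subtype (Set.Finite.subset (Set.finite_Iio (2 * q)) (fun l hl => by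
      have : l + 1 < 2 * q := hl
      exact Set.mem_Iio.2 (by omega)))
  obtain ⟨E1, h1, hE1⟩ := bound a
  obtain ⟨E2, h2, hE2⟩ := bound b
  obtain ⟨E3, h3, hE3⟩ := bound a'
  obtain ⟨E4, h4, hE4⟩ := bound b'
  obtain ⟨E5, h5, hE5⟩ := bound f
  obtain ⟨E6, h6, hE6⟩ := bound g
  set E : ℤ := E1 + E2 + E3 + E4 + E5 + E6 with hE
  set A : ℤ := M * (2 * E + 1) with hA
  have hA1 : 2 * E < A := by
    have : 0 ≤ E := by omega
    rw [hA]; nlinarith
  have hL0 : 0 < 2 * A := by omega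
  set p : Fin q × Bool → ℤ := fun w => if w.2 then b w.1 else a' w.1 with hp
  have hp0 : ∀ j, p (j, false) = a' j := fun j => rfl
  have hp1 : ∀ j, p (j, true) = b j := fun j => rfl
  set B : ℤ × (Fin q × Bool) → Set V := fun w => {y | ∃ x : ℤ,
    (p w.2 + 2 * A * w.1 ≤ x ∧ x < p w.2 + 2 * A * w.1 + 2 * A) ∧ v x (li q w.2) = y} with hB
  have l0 : ∀ j : Fin q, li q (j, false) = 2 * (j : ℕ) := fun j => by unfold li; simp
  have l1 : ∀ j : Fin q, li q (j, true) = 2 * (j : ℕ) + 1 := fun j => by unfold li; simp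
  have mem : ∀ (w : ℤ × (Fin q × Bool)) (x : ℤ) (l : ℕ), l = li q w.2 →
      p w.2 + 2 * A * w.1 ≤ x → x < p w.2 + 2 * A * w.1 + 2 * A → v x l ∈ B w := by
    rintro w x l rfl h1 h2
    exact ⟨x, ⟨h1, h2⟩, rfl⟩
  refine ⟨B, ?_, ?_, ?_⟩
  · intro w
    exact conn_line (fun x => v x (li q w.2)) _ (p w.2 + 2 * A * w.1) ⟨le_refl _, by omega⟩
      (by rintro x hx ⟨h1, h2⟩; exact ⟨by omega, by omega⟩)
      (by rintro x hx ⟨h1, h2⟩; exact ⟨by omega, by omega⟩)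
      (fun x _ _ => ln x _ (li_lt _))
  · rintro ⟨x, w⟩ ⟨y, w'⟩ _ ⟨z, ⟨g1, g2⟩, rfl⟩ ⟨z', ⟨g3, g4⟩, hz⟩
    obtain ⟨e1, e2⟩ := inj _ _ _ _ (li_lt _) (li_lt _) hz
    have e3 := li_inj e2
    simp only at g1 g2 g3 g4 e3
    subst e1 e3
    have a1 : 2 * A * x < 2 * A * (y + 1) := by rw [mul_add]; omega
    have a2 : 2 * A * y < 2 * A * (x + 1) := by rw [mul_add]; omega
    have b1 := lt_of_mul_lt_mul_left a1 (le_of_lt hL0)
    have b2 := lt_of_mul_lt_mul_left a2 (le_of_lt hL0)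
    have : x = y := by omega
    rw [this]
  · have hx1 : ∀ x : ℤ, 2 * A * (x + 1) = 2 * A * x + 2 * A := fun x => by ring
    have hk1 : ∀ x : ℤ, M * (2 * (2 * E + 1) * (x + 1)) = 2 * A * x + 2 * A := fun x => by
      rw [hA]; ring
    have hk2 : ∀ x : ℤ, M * (2 * (2 * E + 1) * x + (2 * E + 1)) = 2 * A * x + A := fun x => by
      rw [hA]; ring
    have up : ∀ (x : ℤ) (j : Fin q) (ε ε' : Bool), ∃ y ∈ B (x, (j, ε)),
        ∃ z ∈ B (x + 1, (j, ε')), G.Adj y z := by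
      intro x j ε ε'
      have c1 := hcr j (2 * (2 * E + 1) * (x + 1))
      rw [hk1] at c1
      have d1 := abs_le.1 (hE1 j)
      have d2 := abs_le.1 (hE2 j)
      have d3 := abs_le.1 (hE3 j)
      have d4 := abs_le.1 (hE4 j)
      have d5 := haa j
      have d6 := hbb j
      by_cases hε : ε = ε'
      · subst hε
        refine ⟨v (p (j, ε) + 2 * A * x + 2 * A - 1) (li q (j, ε)), mem _ _ _ rfl ?_ ?_,
          v (p (j, ε) + 2 * A * x + 2 * A - 1 + 1) (li q (j, ε)), mem _ _ _ rfl ?_ ?_,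
          ln _ _ (li_lt _)⟩ <;> simp only [hx1] <;> omega
      · cases ε <;> cases ε'
        · exact absurd rfl hε
        · refine ⟨_, mem _ _ _ (l0 j).symm ?_ ?_, _, mem _ _ _ (l1 j).symm ?_ ?_, c1.1⟩ <;>
            simp only [hx1, hp0, hp1] <;> omega
        · refine ⟨_, mem _ _ _ (l1 j).symm ?_ ?_, _, mem _ _ _ (l0 j).symm ?_ ?_, c1.2.symm⟩ <;>
            simp only [hx1, hp0, hp1] <;> omega
        · exact absurd rfl hε
    have lev : ∀ (x : ℤ) (j : Fin q), ∃ y ∈ B (x, (j, false)), ∃ z ∈ B (x, (j, true)),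
        G.Adj y z := by
      intro x j
      have c1 := hcr j (2 * (2 * E + 1) * x + (2 * E + 1))
      rw [hk2] at c1
      have d1 := abs_le.1 (hE1 j)
      have d2 := abs_le.1 (hE2 j)
      have d3 := abs_le.1 (hE3 j)
      have d4 := abs_le.1 (hE4 j)
      have d5 := haa j
      have d6 := hbb j
      refine ⟨_, mem _ _ _ (l0 j).symm ?_ ?_, _, mem _ _ _ (l1 j).symm ?_ ?_, c1.1⟩ <;>
        simp only [hp0, hp1] <;> omega
    have nxt : ∀ (x : ℤ) (j j' : Fin q), (j' : ℕ) = (j : ℕ) + 1 → ∃ y ∈ B (x, (j, true)),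
        ∃ z ∈ B (x, (j', false)), G.Adj y z := by
      intro x j j' hjj
      have hl : 2 * (j : ℕ) + 1 + 1 < 2 * q := by have := j'.2; omega
      have c1 := hfg ⟨2 * (j : ℕ) + 1, hl⟩ (2 * (2 * E + 1) * x + (2 * E + 1))
      rw [hk2] at c1
      have d2 := abs_le.1 (hE2 j)
      have d3 := abs_le.1 (hE3 j')
      have d5 := abs_le.1 (hE5 ⟨2 * (j : ℕ) + 1, hl⟩)
      have d6 := abs_le.1 (hE6 ⟨2 * (j : ℕ) + 1, hl⟩)
      have e2 : 2 * (j : ℕ) + 1 + 1 = li q (j', false) := by rw [l0]; omega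
      refine ⟨_, mem _ _ _ (l1 j).symm ?_ ?_, _, mem _ _ _ e2 ?_ ?_, c1⟩ <;>
        simp only [hp0, hp1] <;> omega
    have pairE : ∀ (x y : ℤ) (j : Fin q) (ε ε' : Bool), |x - y| ≤ 1 →
        ((x, (j, ε)) : ℤ × (Fin q × Bool)) ≠ (y, (j, ε')) →
        ∃ a ∈ B (x, (j, ε)), ∃ b ∈ B (y, (j, ε')), G.Adj a b := by
      intro x y j ε ε' hxy hne
      rw [abs_le] at hxy
      have h3 : y = x + 1 ∨ x = y + 1 ∨ x = y := by omega
      rcases h3 with rfl | rfl | rfl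
      · exact up x j ε ε'
      · obtain ⟨a, ha, b, hb, hab⟩ := up y j ε' ε
        exact ⟨b, hb, a, ha, hab.symm⟩
      · cases ε <;> cases ε'
        · exact absurd rfl hne
        · exact lev x j
        · obtain ⟨a, ha, b, hb, hab⟩ := lev x j
          exact ⟨b, hb, a, ha, hab.symm⟩
        · exact absurd rfl hne
    rintro ⟨x, ⟨j, ε⟩⟩ ⟨y, ⟨j', ε'⟩⟩ hadj
    unfold Nq at hadj
    rw [SimpleGraph.fromRel_adj] at hadj
    obtain ⟨hne, (⟨h1, h2⟩ | ⟨h1, h2, h3, h4⟩) | (⟨h1, h2⟩ | ⟨h1, h2, h3, h4⟩)⟩ := hadj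
    · simp only at h1 h2
      subst h1
      exact pairE x y j ε ε' h2 hne
    · simp only at h1 h2 h3 h4
      subst h1 h3 h4
      exact nxt x j j' h2
    · simp only at h1 h2
      subst h1
      rw [abs_sub_comm] at h2
      exact pairE x y j' ε ε' h2 hne
    · simp only at h1 h2 h3 h4
      subst h1 h3 h4
      obtain ⟨a, ha, b, hb, hab⟩ := nxt y j' j h2
      exact ⟨b, hb, a, ha, hab.symm⟩

theorem starA {V : Type*} {G : SimpleGraph V} (q : ℕ) (hq : 0 < q) (M : ℤ) (hM : 0 < M)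
    (v : ℤ → ℕ → V)
    (inj : ∀ x l x' l', l < 2 * q → l' < 2 * q → v x l = v x' l' → x = x' ∧ l = l')
    (ln : ∀ x l, l < 2 * q → G.Adj (v x l) (v (x + 1) l))
    (lk : ∀ l, l + 1 < 2 * q → ∃ a b : ℤ, ∀ k : ℤ, G.Adj (v (a + M * k) l) (v (b + M * k) (l + 1)))
    (cr : ∀ j, j < q → ∃ a b a' b' : ℤ, a < a' ∧ b' < b ∧ ∀ k : ℤ,
      G.Adj (v (a + M * k) (2 * j)) (v (b + M * k) (2 * j + 1)) ∧
      G.Adj (v (a' + M * k) (2 * j)) (v (b' + M * k) (2 * j + 1))) : Mn (StarZ (Fin q)) G :=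
  (nq1 q hq).trans (nqA q M hM v inj ln lk cr)

end Pool.Agent.Helper95.TE
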